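import Pool.Agent.Y199.NN.NegA1

/-!
Varieties covered by images of the multiplicative group are not of logarithmic general type.
-/

set_option autoImplicit false

open FF IntermediateField Pool.Agent.W619.PQ Pool.Agent.W619.PL Pool.Agent.W619.TW
  Pool.Agent.W619.Y Pool.Agent.W602.GT Pool.Agent.Y199.NN

namespace Pool.Agent.Y199.NG

variable {k K : Type} [Field k] [CharZero k] [Field K] [Algebra k K]

theorem not_lgt_of_gm [Algebra.EssFiniteType k K] {n : ℕ} (htr : Algebra.trdeg k K = n)
    {Bd : Place k K → Prop} {M : Type} [Field M] [Algebra k M] (φ : K →ₐ[k] RatFunc M)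
    (hess : Algebra.EssFiniteType k M) (htrM : Algebra.trdeg k M + 1 = n)
    (hA : ∀ w : Place M (RatFunc M), w.ord RatFunc.X = 0 → ∀ (v : Place k K) (e : ℕ), 0 < e →
      (∀ f : K, w.ord (φ f) = e * v.ord f) → ¬ Bd v) : ¬ LogGeneralType k K n Bd := by
  classical
  let _ : Algebra K (RatFunc M) := φ.toRingHom.toAlgebra
  have t1 : IsScalarTower k K (RatFunc M) := IsScalarTower.of_algebraMap_eq fun c => by
    change _ = φ (algebraMap k K c)
    rw [φ.commutes]
  have hmap : ∀ f : K, algebraMap K (RatFunc M) f = φ f := fun _ => rfl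
  have hXM : Transcendental M (RatFunc.X : RatFunc M) := RatFunc.transcendental_X
  have htopM : M⟮(RatFunc.X : RatFunc M)⟯ = ⊤ := RatFunc.adjoin_X
  have hessXM : Algebra.EssFiniteType M (RatFunc M) := by
    have h1 : (⊤ : IntermediateField M (RatFunc M)).FG := by
      rw [← htopM]
      exact ⟨{RatFunc.X}, by simp⟩
    have h2 : Algebra.EssFiniteType M (⊤ : IntermediateField M (RatFunc M)) :=
      (IntermediateField.essFiniteType_iff).2 h1
    exact (Algebra.EssFiniteType.iff_of_algEquiv (IntermediateField.topEquiv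
      (F := M) (E := RatFunc M))).1 h2
  have hessR : Algebra.EssFiniteType k (RatFunc M) := Algebra.EssFiniteType.comp k M (RatFunc M)
  have htrX : IsTranscendenceBasis M (fun _ : Unit => (RatFunc.X : RatFunc M)) := by
    have h1 : AlgebraicIndependent M (fun _ : Unit => (RatFunc.X : RatFunc M)) :=
      (algebraicIndependent_unique_type_iff).2 hXM
    rw [h1.isTranscendenceBasis_iff_isAlgebraic]
    have h2 : Set.range (fun _ : Unit => (RatFunc.X : RatFunc M)) = {RatFunc.X} := by simp
    rw [h2]
    have h3 : Algebra.IsAlgebraic M⟮(RatFunc.X : RatFunc M)⟯ (RatFunc M) := by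
      rw [htopM]
      exact ⟨fun z => isAlgebraic_algebraMap
        (⟨z, trivial⟩ : (⊤ : IntermediateField M (RatFunc M)))⟩
    exact alg_adjoin h3
  have hR : Algebra.trdeg k (RatFunc M) = n := by
    have h1 := _root_.trdeg_add_eq k M (A := RatFunc M)
    have h2 : Algebra.trdeg M (RatFunc M) = 1 := by
      rw [← htrX.cardinalMk_eq_trdeg]
      simp
    rw [← h1, h2]
    exact htrM
  -- finiteness
  obtain ⟨y, hy⟩ := basis_of_trdeg htr
  have hyR : AlgebraicIndependent k (fun i => φ (y i)) := hy.1.map' φ.injective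
  have hyb : IsTranscendenceBasis k (fun i => φ (y i)) := by
    refine hyR.isTranscendenceBasis_of_lift_trdeg_le_of_finite ?_
    rw [hR]
    simp
  have halg : Algebra.IsAlgebraic K (RatFunc M) := by
    have h1 : Algebra.IsAlgebraic (IntermediateField.adjoin k (Set.range fun i => φ (y i)))
      (RatFunc M) := hyb.isAlgebraic_field
    refine ⟨fun z => ?_⟩
    have h2 := h1.isAlgebraic z
    have hle : IntermediateField.adjoin k (Set.range fun i => φ (y i)) ≤ φ.fieldRange := by
      rw [adjoin_le_iff]
      rintro _ ⟨i, rfl⟩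
      exact ⟨y i, rfl⟩
    let e : K ≃ₐ[k] φ.fieldRange := AlgEquiv.ofInjectiveField φ
    let g : IntermediateField.adjoin k (Set.range fun i => φ (y i)) →+* K :=
      (e.symm : φ.fieldRange →+* K).comp (inclusion hle).toRingHom
    refine h2.ringHom_of_comp_eq g (RingHom.id _) g.injective ?_
    ext w
    change φ (e.symm (inclusion hle w)) = (w : RatFunc M)
    have h3 : e (e.symm (inclusion hle w)) = inclusion hle w := e.apply_symm_apply _
    exact congrArg Subtype.val h3
  have hfd : FiniteDimensional K (RatFunc M) := by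
    have h1 : Algebra.EssFiniteType K (RatFunc M) := Algebra.EssFiniteType.of_comp k K (RatFunc M)
    obtain ⟨s, hs⟩ := IntermediateField.fg_top K (RatFunc M)
    have h2 : FiniteDimensional K (IntermediateField.adjoin K (s : Set (RatFunc M))) :=
      IntermediateField.finiteDimensional_adjoin fun x _ => (halg.isAlgebraic x).isIntegral
    rw [hs] at h2
    exact h2.equiv IntermediateField.topEquiv.toLinearEquiv
  -- the sections
  rintro ⟨-, N, hN, ω, hpl, hlog, hreg, D0, hD0, hind⟩
  obtain ⟨E, hE⟩ : ∃ E : Fin n → Derivation k K K, ∀ i j, E i (y j) = if i = j then 1 else 0 := by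
    choose E hE using fun i : Fin n => exists_der y hy (fun j => if i = j then (1 : K) else 0)
    exact ⟨E, hE⟩
  have hsec : ∀ s, IsSec k K n Bd {1} N 0 (ω s) := by
    intro s
    refine ⟨hpl s, fun v hv hb D hD => ?_, fun v hv hb D hD => ?_⟩
    · rcases hreg v hv hb s D hD with h1 | h1
      · exact Or.inl h1
      · exact Or.inr ⟨1, Finset.mem_singleton_self _, one_ne_zero, by simpa using h1⟩
    · rcases hlog v hv s D hD with h1 | h1
      · exact Or.inl h1
      · exact Or.inr ⟨1, Finset.mem_singleton_self _, one_ne_zero, by simpa using h1⟩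
  have hsec2 := fun s => pull k K (RatFunc M) n htr (fun y hy => fin_over' y hy) Bd {1} N 0 y E hy
    hE (ω s) (hsec s)
  set ω' : Fin (n + 1) → (Fin n → Derivation k (RatFunc M) (RatFunc M)) → RatFunc M := fun s D =>
    (Matrix.of fun a b => D a (algebraMap K (RatFunc M) (y b))).det ^ N *
      algebraMap K (RatFunc M) (ω s E) with hω'
  have hDom : ∀ (P : Place k (RatFunc M)) (f : RatFunc M),
      Dom P (({1} : Finset K).image (algebraMap K (RatFunc M))) 0 f → P.Reg f := by
    rintro P f (h1 | ⟨s, -, -, h1⟩)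
    · exact Or.inl h1
    · exact Or.inr (by simpa using h1)
  have hLS : ∀ s, LogSec k (RatFunc M) n N (BdUp Bd) (ω' s) := by
    intro s
    refine ⟨(hsec2 s).1, fun P hP D hD => ?_, fun P hP hb D hD => ?_⟩
    · by_cases hb : BdUp Bd P
      · exact hDom P _ ((hsec2 s).2.2 P hP hb D hD)
      · refine hDom P _ ((hsec2 s).2.1 P hP hb D fun l f hf => ?_)
        by_cases hf0 : f = 0
        · rw [hf0, map_zero]; exact P.reg_zero
        · have h1 := P.reg_mul (hD l f) hf
          rwa [div_mul_cancel₀ _ hf0] at h1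
    · exact hDom P _ ((hsec2 s).2.1 P hP hb D hD)
  -- the derivation
  have hcM : CharZero M := charZero_of_injective_algebraMap (algebraMap k M).injective
  obtain ⟨d0, hd0⟩ := exists_der (L := M) (fun _ : Unit => (RatFunc.X : RatFunc M)) htrX
    (fun _ => RatFunc.X)
  let δ : Derivation k (RatFunc M) (RatFunc M) := d0.restrictScalars k
  have hδX : δ RatFunc.X = RatFunc.X := hd0 ()
  have hδM : ∀ c : M, δ (algebraMap M (RatFunc M) c) = 0 := fun c => d0.map_algebraMap c
  have htop : (consts δ)⟮(RatFunc.X : RatFunc M)⟯ = ⊤ := by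
    rw [eq_top_iff]
    intro f _
    have hf : f ∈ M⟮(RatFunc.X : RatFunc M)⟯ := by rw [htopM]; exact mem_top
    induction hf using IntermediateField.adjoin_induction with
    | mem x hx =>
      rw [Set.mem_singleton_iff] at hx
      rw [hx]
      exact IntermediateField.mem_adjoin_simple_self _ _
    | algebraMap c =>
      exact (consts δ)⟮(RatFunc.X : RatFunc M)⟯.algebraMap_mem ⟨algebraMap M (RatFunc M) c, hδM c⟩
    | add x y _ _ hx hy => exact add_mem (hx mem_top) (hy mem_top)
    | inv x _ hx => exact inv_mem (hx mem_top)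
    | mul x y _ _ hx hy => exact mul_mem (hx mem_top) (hy mem_top)
  have hgood : ∀ P : Place k (RatFunc M), (∀ c, δ c = 0 → c ≠ 0 → P.ord c = 0) →
      P.ord RatFunc.X = 0 → ¬ BdUp Bd P := by
    rintro P h1 h2 ⟨v, e, hov, hb⟩
    let w : Place M (RatFunc M) :=
      { ord := P.ord
        ord_zero := P.ord_zero
        ord_mul := fun {f g} hf hg => P.ord_mul hf hg
        ord_add := fun {f g} hf hg hfg => P.ord_add hf hg hfg
        ord_const := fun {c} hc => h1 _ (hδM c) ((map_ne_zero _).2 hc)
        surj := P.surj }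
    exact hA w h2 v e hov.1 (fun f => hov.2 f) hb
  obtain ⟨D, hD, hconst, -⟩ := sec_const hR (Bd := BdUp Bd) δ RatFunc.X_ne_zero hδX htop hgood
  -- the forms on a common frame
  have h4 : (fun i => ∑ j, (Matrix.of fun a b => D0 a (y b)) i j • E j) = D0 := by
    funext i
    apply der_ext y hy
    intro q
    have h0 : ∀ (t : Finset (Fin n)) (c : Fin n → K) (z : K),
        (∑ l ∈ t, c l • E l) z = ∑ l ∈ t, c l * E l z := by
      intro t c z
      induction t using Finset.induction_on with
      | empty => simp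
      | insert l t hl ih =>
        rw [Finset.sum_insert hl, Finset.sum_insert hl, Derivation.add_apply, ih]
        rfl
    rw [h0, Finset.sum_eq_single q]
    · rw [hE, if_pos rfl, mul_one]
      rfl
    · intro b _ hb
      rw [hE, if_neg hb, mul_zero]
    · intro h
      exact absurd (Finset.mem_univ _) h
  set A0 : Matrix (Fin n) (Fin n) K := Matrix.of fun a b => D0 a (y b) with hA0
  have h5 : ∀ s, ω s D0 = A0.det ^ N * ω s E := by
    intro s
    conv_lhs => rw [← h4]
    exact hpl s A0 E
  have hdet : A0.det ^ N ≠ 0 := by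
    intro h0
    apply hD0
    rw [h5, h0, zero_mul]
  have hE0 : ω 0 E ≠ 0 := by
    intro h0
    apply hD0
    rw [h5, h0, mul_zero]
  have hratio : ∀ s, ω s D0 / ω 0 D0 = ω s E / ω 0 E := by
    intro s
    rw [h5, h5, mul_div_mul_left _ _ hdet]
  -- the ratios are constants
  have hJ : (Matrix.of fun a b => D a (algebraMap K (RatFunc M) (y b))).det ≠ 0 := by
    choose E' hE' using fun i : Fin n => exists_der (L := k) (fun i => φ (y i)) hyb
      (fun j => if i = j then (1 : RatFunc M) else 0)
    obtain ⟨A, hA'⟩ := hD E'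
    intro h0
    have h1 : (Matrix.of fun a b => E' a (algebraMap K (RatFunc M) (y b))) = 1 := by
      ext a b
      rw [Matrix.of_apply, Matrix.one_apply]
      exact hE' a b
    have h2 : (Matrix.of fun a b => E' a (algebraMap K (RatFunc M) (y b))) =
        A * Matrix.of fun a b => D a (algebraMap K (RatFunc M) (y b)) := by
      ext a b
      rw [Matrix.of_apply, Matrix.mul_apply, ← hA']
      have h0 : ∀ (t : Finset (Fin n)) (c : Fin n → RatFunc M) (z : RatFunc M),
          (∑ l ∈ t, c l • D l) z = ∑ l ∈ t, c l * D l z := by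
        intro t c z
        induction t using Finset.induction_on with
        | empty => simp
        | insert l t hl ih =>
          rw [Finset.sum_insert hl, Finset.sum_insert hl, Derivation.add_apply, ih]
          rfl
      exact h0 _ _ _
    have h3 := congrArg Matrix.det h2
    rw [h1, Matrix.det_one, Matrix.det_mul, h0, mul_zero] at h3
    exact one_ne_zero h3
  have hc : ∀ s, δ (φ (ω s D0 / ω 0 D0)) = 0 := by
    intro s
    have h1 := hconst N (ω' s) (hLS s)
    have h2 := hconst N (ω' 0) (hLS 0)
    have h3 : φ (ω s D0 / ω 0 D0) = ω' s D / ω' 0 D := by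
      rw [hratio, map_div₀]
      change φ (ω s E) / φ (ω 0 E) = ((Matrix.of fun a b =>
        D a (algebraMap K (RatFunc M) (y b))).det ^ N * φ (ω s E)) /
        ((Matrix.of fun a b => D a (algebraMap K (RatFunc M) (y b))).det ^ N * φ (ω 0 E))
      rw [mul_div_mul_left _ _ (pow_ne_zero N hJ)]
    rw [h3, div_eq_mul_inv, Derivation.leibniz, Derivation.leibniz_inv, h1, h2]
    simp
  have hindR : AlgebraicIndependent k (fun i : Fin n => φ (ω i.succ D0 / ω 0 D0)) :=
    hind.map' φ.injective
  have hbasR : IsTranscendenceBasis k (fun i : Fin n => φ (ω i.succ D0 / ω 0 D0)) := by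
    refine hindR.isTranscendenceBasis_of_lift_trdeg_le_of_finite ?_
    rw [hR]
    simp
  have hδ0 : δ = 0 := by
    refine der_eq_zero δ (Set.range fun i : Fin n => φ (ω i.succ D0 / ω 0 D0)) ?_ ?_
    · exact hbasR.isAlgebraic_field
    · rintro _ ⟨i, rfl⟩
      exact hc i.succ
  have h6 : δ RatFunc.X = 0 := by rw [hδ0]; rfl
  rw [hδX] at h6
  exact RatFunc.X_ne_zero h6

end Pool.Agent.Y199.NG
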